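import Pool.Agent.Helper26.RR.Defs
import Pool.Agent.Helper86.MQ.Defs

/-!
# Nonlinear recurrences: all orbits escape to the attracting point at infinity
-/

set_option autoImplicit false

namespace Pool.Agent.Helper86.RR

open MvPolynomial Filter Topology
open Pool.Agent.Helper26.RR (sh sh_last sh_castSucc)
open Pool.Agent.Helper86.MQ (pm)

variable {p : ℕ} [hp : Fact p.Prime] {m d r : ℕ}

/-- The conditions on `f`. -/
structure Ok (p : ℕ) [Fact p.Prime] (m d r : ℕ) (f : MvPolynomial (Fin (m + 1)) ℚ_[p]) : Prop where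
  r1 : 1 ≤ r
  rd : r < d
  deg : f.totalDegree ≤ d
  s : ‖coeff (Finsupp.single (Fin.last m) d) f‖ = (p : ℝ) ^ r
  int : ∀ e, e ≠ Finsupp.single (Fin.last m) d → ‖coeff e f‖ ≤ 1
  zero : ‖coeff 0 f‖ = 1

/-- the escaping region -/
def Es (x : Fin (m + 1) → ℚ_[p]) : Prop :=
  1 < ‖x (Fin.last m)‖ ∧ ∀ j, ‖x j‖ ≤ ‖x (Fin.last m)‖

theorem pm_last (f : MvPolynomial (Fin (m + 1)) ℚ_[p]) (x : Fin (m + 1) → ℚ_[p]) :
    pm (sh f) x (Fin.last m) = eval x f := by
  rw [pm, sh_last]

theorem pm_castSucc (f : MvPolynomial (Fin (m + 1)) ℚ_[p]) (x : Fin (m + 1) → ℚ_[p])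
    (i : Fin m) : pm (sh f) x i.castSucc = x i.succ := by
  rw [pm, sh_castSucc, eval_X]

theorem eval_split (f : MvPolynomial (Fin (m + 1)) ℚ_[p]) (x : Fin (m + 1) → ℚ_[p]) (d : ℕ) :
    eval x f = coeff (Finsupp.single (Fin.last m) d) f * x (Fin.last m) ^ d +
      ∑ e ∈ f.support.erase (Finsupp.single (Fin.last m) d), coeff e f * ∏ j, x j ^ e j := by
  classical
  rw [eval_eq']
  have h1 : ∏ j, x j ^ (Finsupp.single (Fin.last m) d : Fin (m + 1) →₀ ℕ) j =
      x (Fin.last m) ^ d := by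
    rw [Finset.prod_eq_single (Fin.last m)]
    · simp
    · intro b _ hb
      simp [hb.symm]
    · simp
  by_cases hs : Finsupp.single (Fin.last m) d ∈ f.support
  · rw [← Finset.add_sum_erase _ _ hs, h1]
  · rw [Finset.erase_eq_of_notMem hs, notMem_support_iff.1 hs, zero_mul, zero_add]

theorem norm_sum_le' {ι : Type*} (s : Finset ι) (g : ι → ℚ_[p]) {C : ℝ} (hC : 0 ≤ C)
    (h : ∀ i ∈ s, ‖g i‖ ≤ C) : ‖∑ i ∈ s, g i‖ ≤ C := by
  exact IsUltrametricDist.norm_sum_le_of_forall_le_of_nonneg hC h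

theorem one_lt_p : (1 : ℝ) < p := by exact_mod_cast hp.out.one_lt

/-- The value in the escaping region. -/
theorem Ok.norm_eval {f : MvPolynomial (Fin (m + 1)) ℚ_[p]} (hf : Ok p m d r f)
    {x : Fin (m + 1) → ℚ_[p]} (hx : Es x) : ‖eval x f‖ = (p : ℝ) ^ r * ‖x (Fin.last m)‖ ^ d := by
  have hp1 : (1 : ℝ) < p := one_lt_p
  have hpr : (1 : ℝ) < (p : ℝ) ^ r := one_lt_pow₀ hp1 (by have := hf.r1; omega)
  have hpos : 0 < ‖x (Fin.last m)‖ := zero_lt_one.trans hx.1
  have h1 : ‖∑ e ∈ f.support.erase (Finsupp.single (Fin.last m) d),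
      coeff e f * ∏ j, x j ^ e j‖ ≤ ‖x (Fin.last m)‖ ^ d := by
    refine norm_sum_le' _ _ (by positivity) fun e he => ?_
    rw [Finset.mem_erase] at he
    rw [norm_mul, norm_prod]
    have h2 : ∏ j, ‖x j ^ e j‖ ≤ ‖x (Fin.last m)‖ ^ d := by
      calc ∏ j, ‖x j ^ e j‖ ≤ ∏ j, ‖x (Fin.last m)‖ ^ e j := by
            refine Finset.prod_le_prod (fun j _ => norm_nonneg _) fun j _ => ?_
            rw [norm_pow]
            exact pow_le_pow_left₀ (norm_nonneg _) (hx.2 j) _
        _ = ‖x (Fin.last m)‖ ^ e.degree := by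
            rw [Finset.prod_pow_eq_pow_sum, Finsupp.degree_eq_sum]
        _ ≤ ‖x (Fin.last m)‖ ^ d :=
            pow_le_pow_right₀ hx.1.le ((le_totalDegree he.2).trans hf.deg)
    calc ‖coeff e f‖ * ∏ j, ‖x j ^ e j‖ ≤ 1 * ‖x (Fin.last m)‖ ^ d :=
          mul_le_mul (hf.int e he.1) h2 (Finset.prod_nonneg fun j _ => norm_nonneg _) zero_le_one
      _ = _ := one_mul _
  have h2 : ‖coeff (Finsupp.single (Fin.last m) d) f * x (Fin.last m) ^ d‖ =
      (p : ℝ) ^ r * ‖x (Fin.last m)‖ ^ d := by rw [norm_mul, norm_pow, hf.s]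
  have h3 : ‖x (Fin.last m)‖ ^ d < (p : ℝ) ^ r * ‖x (Fin.last m)‖ ^ d := by
    have : 0 < ‖x (Fin.last m)‖ ^ d := by positivity
    nlinarith
  rw [eval_split f x d, IsUltrametricDist.norm_add_eq_max_of_norm_ne_norm]
  · rw [h2]
    exact max_eq_left (h1.trans h3.le)
  · rw [h2]
    exact (h1.trans_lt h3).ne'

theorem Ok.es_step {f : MvPolynomial (Fin (m + 1)) ℚ_[p]} (hf : Ok p m d r f)
    {x : Fin (m + 1) → ℚ_[p]} (hx : Es x) : Es (pm (sh f) x) ∧
      ‖x (Fin.last m)‖ ^ 2 ≤ ‖pm (sh f) x (Fin.last m)‖ := by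
  have hp1 : (1 : ℝ) < p := one_lt_p
  have hpr : (1 : ℝ) < (p : ℝ) ^ r := one_lt_pow₀ hp1 (by have := hf.r1; omega)
  have hd2 : 2 ≤ d := by have := hf.r1; have := hf.rd; omega
  have h1 : ‖pm (sh f) x (Fin.last m)‖ = (p : ℝ) ^ r * ‖x (Fin.last m)‖ ^ d := by
    rw [pm_last, hf.norm_eval hx]
  have h2 : ‖x (Fin.last m)‖ ^ 2 ≤ ‖x (Fin.last m)‖ ^ d := pow_le_pow_right₀ hx.1.le hd2
  have h3 : ‖x (Fin.last m)‖ ^ 2 ≤ ‖pm (sh f) x (Fin.last m)‖ := by
    rw [h1]
    nlinarith [hx.1]
  have h4 : ‖x (Fin.last m)‖ ≤ ‖x (Fin.last m)‖ ^ 2 := by nlinarith [hx.1]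
  refine ⟨⟨lt_of_lt_of_le hx.1 (h4.trans h3), fun j => ?_⟩, h3⟩
  refine Fin.lastCases ?_ (fun i => ?_) j
  · exact le_rfl
  · rw [pm_castSucc]
    exact (hx.2 _).trans (h4.trans h3)

/-- entries of the windows -/
theorem entry (f : MvPolynomial (Fin (m + 1)) ℚ_[p]) (x : Fin (m + 1) → ℚ_[p]) (n : ℕ) :
    ∀ (t : ℕ) (j : Fin (m + 1)), (j : ℕ) + t = m →
      (pm (sh f))^[n + t] x j = (pm (sh f))^[n] x (Fin.last m) := by
  intro t
  induction t with
  | zero =>
    intro j hj
    have : j = Fin.last m := Fin.ext (by simpa using hj)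
    rw [this, add_zero]
  | succ t ih =>
    intro j hj
    have hlt : (j : ℕ) < m := by omega
    obtain ⟨i, rfl⟩ : ∃ i : Fin m, j = i.castSucc := ⟨⟨j, hlt⟩, rfl⟩
    rw [← add_assoc, Function.iterate_succ_apply', pm_castSucc]
    apply ih
    have h1 : ((i.castSucc : Fin (m + 1)) : ℕ) = i := rfl
    rw [h1] at hj
    rw [Fin.val_succ]
    omega

/-- discreteness of the norm -/
theorem norm_le_of_lt {y : ℚ_[p]} {k : ℕ} (h : ‖y‖ < (p : ℝ) ^ (k + 1)) : ‖y‖ ≤ (p : ℝ) ^ k := by
  have hp1 : (1 : ℝ) < p := one_lt_p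
  by_cases hy : y = 0
  · rw [hy, norm_zero]
    positivity
  · rw [Padic.norm_eq_zpow_neg_valuation hy] at h ⊢
    rw [← zpow_natCast] at h ⊢
    rw [zpow_lt_zpow_iff_right₀ hp1] at h
    rw [zpow_le_zpow_iff_right₀ hp1]
    push_cast at h
    omega

theorem norm_le_inv {y : ℚ_[p]} (h : ‖y‖ < 1) : ‖y‖ ≤ (p : ℝ)⁻¹ := by
  have hp1 : (1 : ℝ) < p := one_lt_p
  by_cases hy : y = 0
  · rw [hy, norm_zero]
    positivity
  · rw [Padic.norm_eq_zpow_neg_valuation hy] at h ⊢
    rw [← zpow_zero (p : ℝ), zpow_lt_zpow_iff_right₀ hp1] at h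
    rw [← zpow_neg_one, zpow_le_zpow_iff_right₀ hp1]
    omega

/-- integral windows -/
theorem Ok.escape_int {f : MvPolynomial (Fin (m + 1)) ℚ_[p]} (hf : Ok p m d r f)
    {x : Fin (m + 1) → ℚ_[p]} (hx : ∀ j, ‖x j‖ ≤ 1) : ∃ n, Es ((pm (sh f))^[n] x) := by
  have hp1 : (1 : ℝ) < p := one_lt_p
  have hpr : (1 : ℝ) < (p : ℝ) ^ r := one_lt_pow₀ hp1 (by have := hf.r1; omega)
  by_contra hcon
  push Not at hcon
  -- all windows are integral
  have hint : ∀ n j, ‖(pm (sh f))^[n] x j‖ ≤ 1 := by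
    intro n
    induction n with
    | zero => exact hx
    | succ n ih =>
      intro j
      have hother : ∀ i : Fin m, ‖(pm (sh f))^[n + 1] x i.castSucc‖ ≤ 1 := by
        intro i
        rw [Function.iterate_succ_apply', pm_castSucc]
        exact ih _
      refine Fin.lastCases ?_ hother j
      by_contra hlt
      push Not at hlt
      refine hcon (n + 1) ⟨hlt, fun j => ?_⟩
      refine Fin.lastCases le_rfl (fun i => ?_) j
      exact (hother i).trans hlt.le
  -- the rest of the value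
  have hrest : ∀ y : Fin (m + 1) → ℚ_[p], (∀ j, ‖y j‖ ≤ 1) →
      ‖∑ e ∈ f.support.erase (Finsupp.single (Fin.last m) d), coeff e f * ∏ j, y j ^ e j‖ ≤ 1 := by
    intro y hy
    refine norm_sum_le' _ _ zero_le_one fun e he => ?_
    rw [Finset.mem_erase] at he
    rw [norm_mul, norm_prod]
    refine mul_le_one₀ (hf.int e he.1) (Finset.prod_nonneg fun j _ => norm_nonneg _) ?_
    refine Finset.prod_le_one (fun j _ => norm_nonneg _) fun j _ => ?_
    rw [norm_pow]
    exact pow_le_one₀ (norm_nonneg _) (hy j)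
  -- the newest value is not a unit
  have hnew : ∀ n, ‖(pm (sh f))^[n] x (Fin.last m)‖ < 1 := by
    intro n
    by_contra hge
    push Not at hge
    have hy := hint n
    set y := (pm (sh f))^[n] x with hydef
    have h1 : ‖y (Fin.last m)‖ = 1 := le_antisymm (hy _) hge
    have h2 : ‖coeff (Finsupp.single (Fin.last m) d) f * y (Fin.last m) ^ d‖ = (p : ℝ) ^ r := by
      rw [norm_mul, norm_pow, h1, one_pow, mul_one, hf.s]
    have h3 := hrest y hy
    have h4 : ‖pm (sh f) y (Fin.last m)‖ = (p : ℝ) ^ r := by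
      rw [pm_last, eval_split f y d, IsUltrametricDist.norm_add_eq_max_of_norm_ne_norm]
      · rw [h2]
        exact max_eq_left (h3.trans hpr.le)
      · rw [h2]
        exact (h3.trans_lt hpr).ne'
    refine hcon (n + 1) ?_
    rw [Function.iterate_succ_apply', ← hydef]
    refine ⟨by rw [h4]; exact hpr, fun j => ?_⟩
    refine Fin.lastCases le_rfl (fun i => ?_) j
    rw [pm_castSucc, h4]
    exact (hy _).trans hpr.le
  -- a window in the maximal ideal
  have hwin : ∀ j, ‖(pm (sh f))^[m] x j‖ < 1 := by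
    intro j
    have h1 : (j : ℕ) ≤ m := by have := j.2; omega
    have h2 := entry f x (j : ℕ) (m - j) j (by omega)
    have h3 : (j : ℕ) + (m - j) = m := by omega
    rw [h3] at h2
    rw [h2]
    exact hnew _
  set y := (pm (sh f))^[m] x with hydef
  have h1 := hnew (m + 1)
  rw [Function.iterate_succ_apply', ← hydef, pm_last, eval_split f y d] at h1
  have h2 : ‖coeff (Finsupp.single (Fin.last m) d) f * y (Fin.last m) ^ d‖ < 1 := by
    rw [norm_mul, norm_pow, hf.s]
    have h3 : ‖y (Fin.last m)‖ ^ d ≤ ((p : ℝ)⁻¹) ^ d :=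
      pow_le_pow_left₀ (norm_nonneg _) (norm_le_inv (hwin _)) _
    calc (p : ℝ) ^ r * ‖y (Fin.last m)‖ ^ d ≤ (p : ℝ) ^ r * ((p : ℝ)⁻¹) ^ d :=
          mul_le_mul_of_nonneg_left h3 (by positivity)
      _ < (p : ℝ) ^ d * ((p : ℝ)⁻¹) ^ d := by
          refine mul_lt_mul_of_pos_right (pow_lt_pow_right₀ hp1 hf.rd) (by positivity)
      _ = 1 := by rw [← mul_pow, mul_inv_cancel₀ (by positivity), one_pow]
  have hd0 : (0 : Fin (m + 1) →₀ ℕ) ≠ Finsupp.single (Fin.last m) d := by
    intro h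
    have := DFunLike.congr_fun h (Fin.last m)
    rw [Finsupp.single_eq_same, Finsupp.zero_apply] at this
    have := hf.rd
    omega
  have h0s : (0 : Fin (m + 1) →₀ ℕ) ∈ f.support.erase (Finsupp.single (Fin.last m) d) := by
    rw [Finset.mem_erase]
    refine ⟨hd0, ?_⟩
    rw [mem_support_iff]
    intro h
    have := hf.zero
    rw [h, norm_zero] at this
    exact zero_ne_one this
  have h4 : ‖∑ e ∈ (f.support.erase (Finsupp.single (Fin.last m) d)).erase 0,
      coeff e f * ∏ j, y j ^ e j‖ ≤ (p : ℝ)⁻¹ := by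
    refine norm_sum_le' _ _ (by positivity) fun e he => ?_
    rw [Finset.mem_erase, Finset.mem_erase] at he
    obtain ⟨he0, he1, he2⟩ := he
    obtain ⟨j, hj⟩ : ∃ j, e j ≠ 0 := by
      by_contra hc
      push Not at hc
      exact he0 (Finsupp.ext hc)
    rw [norm_mul, norm_prod]
    have h5 : ∏ i, ‖y i ^ e i‖ ≤ (p : ℝ)⁻¹ := by
      rw [← Finset.mul_prod_erase _ _ (Finset.mem_univ j)]
      have h6 : ‖y j ^ e j‖ ≤ (p : ℝ)⁻¹ := by
        rw [norm_pow]
        calc ‖y j‖ ^ e j ≤ ‖y j‖ ^ 1 :=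
              pow_le_pow_of_le_one (norm_nonneg _) (hwin j).le (by omega)
          _ ≤ _ := by rw [pow_one]; exact norm_le_inv (hwin j)
      have h7 : ∏ i ∈ Finset.univ.erase j, ‖y i ^ e i‖ ≤ 1 :=
        Finset.prod_le_one (fun i _ => norm_nonneg _) (fun i _ => by
          rw [norm_pow]
          exact pow_le_one₀ (norm_nonneg _) (hwin i).le)
      calc _ ≤ (p : ℝ)⁻¹ * 1 := mul_le_mul h6 h7 (Finset.prod_nonneg fun i _ => norm_nonneg _)
            (by positivity)
        _ = _ := mul_one _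
    calc ‖coeff e f‖ * ∏ i, ‖y i ^ e i‖ ≤ 1 * (p : ℝ)⁻¹ :=
          mul_le_mul (hf.int e he1) h5 (Finset.prod_nonneg fun i _ => norm_nonneg _) zero_le_one
      _ = _ := one_mul _
  rw [← Finset.add_sum_erase _ _ h0s] at h1
  simp only [Finsupp.coe_zero, Pi.zero_apply, pow_zero, Finset.prod_const_one, mul_one] at h1
  have hinv : (p : ℝ)⁻¹ < 1 := inv_lt_one_of_one_lt₀ hp1
  -- `‖f(0)‖ = 1` dominates
  have h8 : ‖coeff 0 f‖ < 1 := by
    set A := coeff (Finsupp.single (Fin.last m) d) f * y (Fin.last m) ^ d with hA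
    set S := ∑ e ∈ (f.support.erase (Finsupp.single (Fin.last m) d)).erase 0,
      coeff e f * ∏ j, y j ^ e j with hS
    have e1 : coeff 0 f = (A + (coeff 0 f + S)) + -A + -S := by ring
    rw [e1]
    refine (IsUltrametricDist.norm_add_le_max _ _).trans_lt (max_lt ?_ ?_)
    · refine (IsUltrametricDist.norm_add_le_max _ _).trans_lt (max_lt h1 ?_)
      rw [norm_neg]
      exact h2
    · rw [norm_neg]
      exact h4.trans_lt hinv
  rw [hf.zero] at h8
  exact lt_irrefl _ h8

/-- **All orbits escape.** -/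
theorem Ok.escape {f : MvPolynomial (Fin (m + 1)) ℚ_[p]} (hf : Ok p m d r f)
    (x : Fin (m + 1) → ℚ_[p]) : ∃ n, Es ((pm (sh f))^[n] x) := by
  have hp1 : (1 : ℝ) < p := one_lt_p
  have key : ∀ (k : ℕ) (x : Fin (m + 1) → ℚ_[p]), (∀ j, ‖x j‖ ≤ (p : ℝ) ^ k) →
      ∃ n, Es ((pm (sh f))^[n] x) := by
    intro k
    induction k with
    | zero =>
      intro x hx
      exact hf.escape_int (fun j => by simpa using hx j)
    | succ k ih =>
      intro x hx
      by_contra hcon
      push Not at hcon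
      have hpk : (1 : ℝ) ≤ (p : ℝ) ^ k := one_le_pow₀ hp1.le
      have hpk1 : (1 : ℝ) < (p : ℝ) ^ (k + 1) := one_lt_pow₀ hp1 (by omega)
      have hall : ∀ n, (∀ j, ‖(pm (sh f))^[n] x j‖ ≤ (p : ℝ) ^ (k + 1)) ∧
          ‖(pm (sh f))^[n] x (Fin.last m)‖ ≤ (p : ℝ) ^ k := by
        have hstep : ∀ n, (∀ i : Fin m, ‖(pm (sh f))^[n] x i.castSucc‖ ≤ (p : ℝ) ^ (k + 1)) →
            ‖(pm (sh f))^[n] x (Fin.last m)‖ ≤ (p : ℝ) ^ k := by
          intro n hn
          apply norm_le_of_lt
          by_contra hge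
          push Not at hge
          refine hcon n ⟨hpk1.trans_le hge, fun j => ?_⟩
          refine Fin.lastCases le_rfl (fun i => ?_) j
          exact (hn i).trans hge
        intro n
        induction n with
        | zero => exact ⟨hx, hstep 0 fun i => hx _⟩
        | succ n ihn =>
          have h1 : ∀ i : Fin m, ‖(pm (sh f))^[n + 1] x i.castSucc‖ ≤ (p : ℝ) ^ (k + 1) := by
            intro i
            rw [Function.iterate_succ_apply', pm_castSucc]
            exact ihn.1 _
          have h2 := hstep (n + 1) h1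
          refine ⟨fun j => ?_, h2⟩
          refine Fin.lastCases ?_ h1 j
          refine h2.trans ?_
          exact pow_le_pow_right₀ hp1.le (Nat.le_succ k)
      obtain ⟨n, hn⟩ := ih ((pm (sh f))^[m] x) (fun j => by
        have h1 : (j : ℕ) ≤ m := by have := j.2; omega
        have h2 := entry f x (j : ℕ) (m - j) j (by omega)
        have h3 : (j : ℕ) + (m - j) = m := by omega
        rw [h3] at h2
        rw [h2]
        exact (hall _).2)
      rw [← Function.iterate_add_apply] at hn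
      exact hcon _ hn
  -- a bound for `x`
  obtain ⟨k, hk⟩ : ∃ k : ℕ, ∀ j, ‖x j‖ ≤ (p : ℝ) ^ k := by
    obtain ⟨k, hk⟩ := pow_unbounded_of_one_lt (∑ j, ‖x j‖) hp1
    refine ⟨k, fun j => le_trans ?_ hk.le⟩
    exact Finset.single_le_sum (f := fun j => ‖x j‖) (fun j _ => norm_nonneg _) (Finset.mem_univ j)
  exact key k x hk

/-- **The values at the orbit** of a polynomial which contains the pure power of the newest
variable. -/
theorem Ok.finite_zero {f : MvPolynomial (Fin (m + 1)) ℚ_[p]} (hf : Ok p m d r f)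
    (x : Fin (m + 1) → ℚ_[p]) {G : MvPolynomial (Fin (m + 1)) ℚ_[p]}
    (hG : coeff (Finsupp.single (Fin.last m) G.totalDegree) G ≠ 0) :
    {n | eval ((pm (sh f))^[n] x) G = 0}.Finite := by
  classical
  obtain ⟨n₀, hn₀⟩ := hf.escape x
  set x' := (pm (sh f))^[n₀] x with hx'
  have hes : ∀ n, Es ((pm (sh f))^[n] x') := by
    intro n
    induction n with
    | zero => exact hn₀
    | succ n ih =>
      rw [Function.iterate_succ_apply']
      exact (hf.es_step ih).1
  set v : ℕ → ℝ := fun n => ‖(pm (sh f))^[n] x' (Fin.last m)‖ with hv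
  have hv1 : ∀ n, 1 < v n := fun n => (hes n).1
  have hv2 : ∀ n, v n ^ 2 ≤ v (n + 1) := by
    intro n
    have h1 := (hf.es_step (hes n)).2
    rw [← Function.iterate_succ_apply' (pm (sh f)) n x'] at h1
    exact h1
  have hmono : Monotone v := monotone_nat_of_le_succ fun n => by
    have := hv1 n
    have := hv2 n
    nlinarith
  -- growth
  have hgrow : ∀ n, v 0 ^ n ≤ v n := by
    intro n
    induction n with
    | zero => simpa using (hv1 0).le
    | succ n ih =>
      rw [pow_succ]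
      have h1 := hv2 n
      have h2 : v 0 ≤ v n := hmono (Nat.zero_le n)
      have h3 := hv1 0
      have h4 := hv1 n
      calc v 0 ^ n * v 0 ≤ v n * v n := mul_le_mul ih h2 (by linarith) (by linarith)
        _ = v n ^ 2 := by ring
        _ ≤ _ := h1
  have hlim : Tendsto v atTop atTop :=
    tendsto_atTop_mono hgrow (tendsto_pow_atTop_atTop_of_one_lt (hv1 0))
  -- the other entries
  have hent : ∀ n (i : Fin m), ‖(pm (sh f))^[n + m + 1] x' i.castSucc‖ ≤ v (n + m) := by
    intro n i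
    have h1 := entry f x' (n + 1 + i) (m - i) i.castSucc (by
      have := i.2
      have h : ((i.castSucc : Fin (m + 1)) : ℕ) = i := rfl
      rw [h]
      omega)
    have h2 : n + 1 + (i : ℕ) + (m - i) = n + m + 1 := by have := i.2; omega
    rw [h2] at h1
    rw [h1]
    exact hmono (by have := i.2; omega)
  set D := G.totalDegree with hD
  set γ := coeff (Finsupp.single (Fin.last m) D) G with hγ
  -- a bound for the coefficients
  obtain ⟨C, hC0, hC⟩ : ∃ C : ℝ, 0 ≤ C ∧ ∀ e, ‖coeff e G‖ ≤ C := by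
    refine ⟨∑ e ∈ G.support, ‖coeff e G‖, Finset.sum_nonneg fun e _ => norm_nonneg _, fun e => ?_⟩
    by_cases he : e ∈ G.support
    · exact Finset.single_le_sum (f := fun e => ‖coeff e G‖) (fun e _ => norm_nonneg _) he
    · rw [notMem_support_iff.1 he, norm_zero]
      exact Finset.sum_nonneg fun e _ => norm_nonneg _
  -- the lower terms
  have hlow : ∀ n, ‖∑ e ∈ G.support.erase (Finsupp.single (Fin.last m) D),
      coeff e G * ∏ j, (pm (sh f))^[n + m + 1] x' j ^ e j‖ ≤
        C * (v (n + m + 1) ^ D / v (n + m)) := by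
    intro n
    have hw1 := hv1 (n + m + 1)
    have hu1 := hv1 (n + m)
    have huw := hv2 (n + m)
    refine norm_sum_le' _ _ (by positivity) fun e he => ?_
    rw [Finset.mem_erase] at he
    rw [norm_mul, norm_prod]
    refine mul_le_mul (hC e) ?_ (Finset.prod_nonneg fun j _ => norm_nonneg _) hC0
    rw [le_div_iff₀ (by linarith)]
    have hdeg : e.degree ≤ D := le_totalDegree he.2
    rw [Fin.prod_univ_castSucc]
    have hlast : ‖(pm (sh f))^[n + m + 1] x' (Fin.last m) ^ e (Fin.last m)‖ =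
        v (n + m + 1) ^ e (Fin.last m) := by rw [norm_pow]
    rw [hlast]
    have hothers : ∏ i : Fin m, ‖(pm (sh f))^[n + m + 1] x' i.castSucc ^ e i.castSucc‖ ≤
        v (n + m) ^ (∑ i : Fin m, e i.castSucc) := by
      rw [← Finset.prod_pow_eq_pow_sum]
      refine Finset.prod_le_prod (fun i _ => norm_nonneg _) fun i _ => ?_
      rw [norm_pow]
      exact pow_le_pow_left₀ (norm_nonneg _) (hent n i) _
    have hsum : e.degree = ∑ i : Fin m, e i.castSucc + e (Fin.last m) := by
      rw [Finsupp.degree_eq_sum, Fin.sum_univ_castSucc]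
    set a := ∑ i : Fin m, e i.castSucc with ha
    set b := e (Fin.last m) with hb
    -- `u ^ a * w ^ b * u ≤ w ^ D`
    have hmain : v (n + m) ^ a * v (n + m + 1) ^ b * v (n + m) ≤ v (n + m + 1) ^ D := by
      by_cases ha0 : a = 0
      · have hbD : b < D := by
          rcases Nat.lt_or_ge b D with h | h
          · exact h
          · exfalso
            apply he.1
            have hbD : b = D := by omega
            ext j
            refine Fin.lastCases ?_ (fun i => ?_) j
            · rw [← hb, hbD, Finsupp.single_eq_same]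
            · have h1 : e i.castSucc = 0 := by
                have := Finset.sum_eq_zero_iff.1 (ha.symm.trans ha0) i (Finset.mem_univ i)
                exact this
              rw [h1, Finsupp.single_apply, if_neg]
              exact (Fin.castSucc_lt_last i).ne'
        rw [ha0, pow_zero, one_mul]
        have h1 : v (n + m) ≤ v (n + m + 1) := hmono (Nat.le_succ _)
        calc v (n + m + 1) ^ b * v (n + m) ≤ v (n + m + 1) ^ b * v (n + m + 1) :=
              mul_le_mul_of_nonneg_left h1 (by positivity)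
          _ = v (n + m + 1) ^ (b + 1) := (pow_succ _ _).symm
          _ ≤ _ := pow_le_pow_right₀ hw1.le hbD
      · have h1 : v (n + m) ^ a * v (n + m) ≤ v (n + m + 1) ^ a := by
          calc v (n + m) ^ a * v (n + m) = v (n + m) ^ (a + 1) := (pow_succ _ _).symm
            _ ≤ v (n + m) ^ (2 * a) := pow_le_pow_right₀ hu1.le (by omega)
            _ = (v (n + m) ^ 2) ^ a := by rw [pow_mul]
            _ ≤ _ := pow_le_pow_left₀ (by positivity) huw _
        calc v (n + m) ^ a * v (n + m + 1) ^ b * v (n + m)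
            = v (n + m) ^ a * v (n + m) * v (n + m + 1) ^ b := by ring
          _ ≤ v (n + m + 1) ^ a * v (n + m + 1) ^ b :=
              mul_le_mul_of_nonneg_right h1 (by positivity)
          _ = v (n + m + 1) ^ (a + b) := (pow_add _ _ _).symm
          _ ≤ _ := pow_le_pow_right₀ hw1.le (by omega)
    calc (∏ i : Fin m, ‖(pm (sh f))^[n + m + 1] x' i.castSucc ^ e i.castSucc‖) *
          v (n + m + 1) ^ b * v (n + m)
        ≤ v (n + m) ^ a * v (n + m + 1) ^ b * v (n + m) := by
          refine mul_le_mul_of_nonneg_right ?_ (by linarith)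
          exact mul_le_mul_of_nonneg_right hothers (by positivity)
      _ ≤ _ := hmain
  -- large times
  have hγ0 : 0 < ‖γ‖ := norm_pos_iff.2 hG
  have hev : ∀ᶠ n in atTop, C / ‖γ‖ < v (n + m) := by
    have h1 : Tendsto (fun n => v (n + m)) atTop atTop :=
      hlim.comp (tendsto_add_atTop_nat m)
    exact h1.eventually_gt_atTop _
  obtain ⟨n₁, hn₁⟩ := eventually_atTop.1 hev
  refine (Finset.range (n₁ + m + 1 + n₀)).finite_toSet.subset fun n hn => ?_
  by_contra hcon
  rw [Finset.mem_coe, Finset.mem_range] at hcon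
  obtain ⟨l, rfl⟩ : ∃ l, n = l + m + 1 + n₀ := ⟨n - m - 1 - n₀, by omega⟩
  have hl : n₁ ≤ l := by omega
  have h1 : eval ((pm (sh f))^[l + m + 1 + n₀] x) G = 0 := hn
  rw [Function.iterate_add_apply, ← hx', eval_split G _ D] at h1
  have h2 := hlow l
  have h3 : ‖γ * (pm (sh f))^[l + m + 1] x' (Fin.last m) ^ D‖ = ‖γ‖ * v (l + m + 1) ^ D := by
    rw [norm_mul, norm_pow]
  have h4 : ‖γ * (pm (sh f))^[l + m + 1] x' (Fin.last m) ^ D‖ =
      ‖∑ e ∈ G.support.erase (Finsupp.single (Fin.last m) D),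
        coeff e G * ∏ j, (pm (sh f))^[l + m + 1] x' j ^ e j‖ := by
    rw [eq_neg_of_add_eq_zero_left h1, norm_neg]
  rw [h3] at h4
  rw [← h4] at h2
  have hw : 0 < v (l + m + 1) ^ D := by
    have := hv1 (l + m + 1)
    positivity
  have hu := hv1 (l + m)
  have h5 : C < v (l + m) * ‖γ‖ := by
    have := hn₁ l hl
    rwa [div_lt_iff₀ hγ0] at this
  have h6 : C * (v (l + m + 1) ^ D / v (l + m)) = C / v (l + m) * v (l + m + 1) ^ D := by
    ring
  rw [h6] at h2
  have h7 : ‖γ‖ ≤ C / v (l + m) := le_of_mul_le_mul_right h2 hw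
  rw [le_div_iff₀ (by linarith)] at h7
  linarith

theorem eval_bind_one {R : Type*} [CommRing R] (g : Fin (m + 1) → MvPolynomial (Fin (m + 1)) R)
    (G : MvPolynomial (Fin (m + 1)) R) (y : Fin (m + 1) → R) :
    eval y (bind₁ g G) = eval (pm g y) G := by
  have h := eval₂Hom_bind₁ (RingHom.id R) y g G
  exact h

/-- Composition with the iterates. -/
theorem eval_bind {R : Type*} [CommRing R] (f F : MvPolynomial (Fin (m + 1)) R) (k : ℕ)
    (x : Fin (m + 1) → R) :
    eval x ((fun G => bind₁ (sh f) G)^[k] F) = eval ((pm (sh f))^[k] x) F := by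
  induction k generalizing F with
  | zero => rfl
  | succ k ih =>
    rw [Function.iterate_succ_apply, ih, Function.iterate_succ_apply', eval_bind_one]

/-- All orbits leave `F = 0`, if an iterate of `F` contains the pure power of the newest
variable. -/
theorem Ok.finite_of_term {f : MvPolynomial (Fin (m + 1)) ℚ_[p]} (hf : Ok p m d r f)
    (x : Fin (m + 1) → ℚ_[p]) {F : MvPolynomial (Fin (m + 1)) ℚ_[p]}
    (hF : ∃ k, coeff (Finsupp.single (Fin.last m)
      ((fun G => bind₁ (sh f) G)^[k] F).totalDegree) ((fun G => bind₁ (sh f) G)^[k] F) ≠ 0) :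
    {n | eval ((pm (sh f))^[n] x) F = 0}.Finite := by
  obtain ⟨k, hk⟩ := hF
  have h1 := hf.finite_zero x hk
  simp only [eval_bind] at h1
  refine ((Finset.range k).finite_toSet.union (h1.image (fun n => n + k))).subset ?_
  intro n hn
  by_cases hnk : n < k
  · exact Or.inl (by simpa using hnk)
  · right
    refine ⟨n - k, ?_, by simp only; omega⟩
    change eval ((pm (sh f))^[k] ((pm (sh f))^[n - k] x)) F = 0
    rw [← Function.iterate_add_apply]
    have e : k + (n - k) = n := by omega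
    rw [e]
    exact hn

end Pool.Agent.Helper86.RR
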