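import Pool.Agent.Helper26.RR.Term

/-!
# Nonlinear recurrences: solutions of maximal growth
-/

set_option autoImplicit false

namespace Pool.Agent.Helper86.RR

open MvPolynomial Filter Topology
open Pool.Agent.Helper26.RR (sh sh_last sh_castSucc term)

/-- Real sequences of maximal growth have increments tending to infinity. -/
theorem incr {d : ℕ} (hd : 2 ≤ d) (ρ : ℕ → ℝ) (c : ℝ) (hc : 0 ≤ c)
    (hstep : ∀ n, ρ (n + 1) ≤ c + d * ρ n) (ε : ℝ) (hε : 0 < ε)
    (hinf : ∀ N, ∃ n, N ≤ n ∧ ε * (d : ℝ) ^ n ≤ ρ n) (M : ℝ) :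
    ∃ N, ∀ n, N ≤ n → ρ n + M ≤ ρ (n + 1) := by
  have hd2 : (2 : ℝ) ≤ d := by exact_mod_cast hd
  set c' : ℝ := c / (d - 1) with hc'
  have hc'0 : 0 ≤ c' := div_nonneg hc (by linarith)
  have hc'e : c' * (d - 1) = c := by
    rw [hc']
    exact div_mul_cancel₀ c (by linarith : (d : ℝ) - 1 > 0).ne'
  set s : ℕ → ℝ := fun n => (ρ n + c') / (d : ℝ) ^ n with hs
  have hpos : ∀ n, (0 : ℝ) < (d : ℝ) ^ n := fun n => by positivity
  have hanti : Antitone s := by
    refine antitone_nat_of_succ_le fun n => ?_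
    simp only [hs]
    rw [div_le_div_iff₀ (hpos _) (hpos _), pow_succ]
    have h1 := hstep n
    have h2 : ρ (n + 1) + c' ≤ (ρ n + c') * d := by nlinarith
    nlinarith [hpos n, mul_le_mul_of_nonneg_right h2 (hpos n).le]
  have hεs : ∀ n, ε ≤ s n := by
    intro n
    obtain ⟨k, hk, hk2⟩ := hinf n
    refine le_trans ?_ (hanti hk)
    simp only [hs]
    rw [le_div_iff₀ (hpos _)]
    linarith
  have hbdd : BddBelow (Set.range s) := ⟨ε, by rintro _ ⟨n, rfl⟩; exact hεs n⟩
  have hlim := tendsto_atTop_ciInf hanti hbdd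
  set L : ℝ := ⨅ n, s n with hL
  have hLε : ε ≤ L := le_ciInf hεs
  have hL0 : 0 < L := hε.trans_le hLε
  have h1 : ∀ᶠ n in atTop, s n < 5 / 4 * L :=
    hlim.eventually (gt_mem_nhds (by linarith))
  have h2 : ∀ᶠ n : ℕ in atTop, 2 * M / L ≤ (2 : ℝ) ^ n :=
    (tendsto_pow_atTop_atTop_of_one_lt (by norm_num : (1 : ℝ) < 2)).eventually_ge_atTop _
  obtain ⟨N, hN⟩ := (h1.and h2).exists_forall_of_atTop
  refine ⟨N, fun n hn => ?_⟩
  obtain ⟨h3, h4⟩ := hN n hn
  have h5 : L ≤ s (n + 1) := ciInf_le hbdd _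
  simp only [hs] at h3 h5
  rw [div_lt_iff₀ (hpos _)] at h3
  rw [le_div_iff₀ (hpos _), pow_succ] at h5
  have h6 : (2 : ℝ) ^ n ≤ (d : ℝ) ^ n := pow_le_pow_left₀ (by norm_num) hd2 n
  rw [div_le_iff₀ hL0] at h4
  have h7 : 2 * M ≤ (d : ℝ) ^ n * L := h4.trans (mul_le_mul_of_nonneg_right h6 hL0.le)
  have h8 : 0 < L * (d : ℝ) ^ n := mul_pos hL0 (hpos n)
  have h9 : L * (d : ℝ) ^ n * 2 ≤ L * ((d : ℝ) ^ n * d) := by
    rw [← mul_assoc]
    exact mul_le_mul_of_nonneg_left hd2 h8.le
  nlinarith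

variable {K : Type*} [Field K] {m d : ℕ}

/-- The point `(a_n, …, a_{n+m})`. -/
def win (m : ℕ) (a : ℕ → K) (n : ℕ) : Fin (m + 1) → K := fun i => a (n + i)

theorem eval_shift {f : MvPolynomial (Fin (m + 1)) K} {a : ℕ → K}
    (rec : ∀ n, a (n + (m + 1)) = eval (win m a n) f) (G : MvPolynomial (Fin (m + 1)) K) (n : ℕ) :
    eval (win m a n) (bind₁ (sh f) G) = eval (win m a (n + 1)) G := by
  have h1 : eval (win m a n) (bind₁ (sh f) G) = eval (fun i => eval (win m a n) (sh f i)) G :=
    MvPolynomial.eval₂Hom_bind₁ (RingHom.id K) (win m a n) (sh f) G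
  rw [h1]
  congr 1
  congr 1
  funext i
  refine Fin.lastCases ?_ (fun i => ?_) i
  · rw [sh_last, ← rec n, win, Fin.val_last]
    congr 1
    omega
  · rw [sh_castSucc, eval_X, win, win, Fin.val_succ, Fin.val_castSucc]
    congr 1
    omega

theorem eval_shift_iterate {f : MvPolynomial (Fin (m + 1)) K} {a : ℕ → K}
    (rec : ∀ n, a (n + (m + 1)) = eval (win m a n) f) (k : ℕ)
    (G : MvPolynomial (Fin (m + 1)) K) (n : ℕ) :
    eval (win m a n) ((fun G => bind₁ (sh f) G)^[k] G) = eval (win m a (n + k)) G := by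
  induction k generalizing G with
  | zero => rfl
  | succ k ih =>
    rw [Function.iterate_succ_apply, ih, eval_shift rec]
    congr 2

/-- The value at a point whose last coordinate dominates. -/
theorem eval_ne_zero (v : AbsoluteValue K ℝ) (x : Fin (m + 1) → K) (r R : ℝ) (hr : 1 ≤ r)
    (hrR : r ≤ R) (hL : v (x (Fin.last m)) = R) (hx : ∀ i : Fin m, v (x i.castSucc) ≤ r)
    (G : MvPolynomial (Fin (m + 1)) K)
    (h : (∑ e ∈ G.support, v (coeff e G)) * r <
      v (coeff (Finsupp.single (Fin.last m) G.totalDegree) G) * R) : eval x G ≠ 0 := by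
  classical
  intro h0
  set D := G.totalDegree with hD
  set u : Fin (m + 1) →₀ ℕ := Finsupp.single (Fin.last m) D with hu
  have hR1 : 1 ≤ R := hr.trans hrR
  have hR0 : 0 < R := zero_lt_one.trans_le hR1
  have hr0 : 0 < r := zero_lt_one.trans_le hr
  have hS : 0 ≤ ∑ e ∈ G.support, v (coeff e G) := Finset.sum_nonneg fun e _ => v.nonneg _
  have hcu : coeff u G ≠ 0 := by
    intro hc
    rw [hc, map_zero, zero_mul] at h
    exact absurd h (not_lt.2 (mul_nonneg hS hr0.le))
  have h1 : coeff u G * x (Fin.last m) ^ D +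
      ∑ e ∈ G.support.erase u, coeff e G * ∏ j, x j ^ e j = 0 := by
    rw [← h0, eval_eq', ← Finset.add_sum_erase _ _ (mem_support_iff.2 hcu)]
    congr 2
    rw [Finset.prod_eq_single (Fin.last m)]
    · simp [hu]
    · intro b _ hb
      simp [hu, hb.symm]
    · simp
  have h2 : v (coeff u G) * R ^ D ≤ ∑ e ∈ G.support.erase u, v (coeff e G) * ∏ j, v (x j) ^ e j := by
    have h3 : coeff u G * x (Fin.last m) ^ D =
        -∑ e ∈ G.support.erase u, coeff e G * ∏ j, x j ^ e j := eq_neg_of_add_eq_zero_left h1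
    rw [← hL, ← map_pow, ← map_mul, h3, map_neg_eq_map]
    refine (v.sum_le _ _).trans (Finset.sum_le_sum fun e _ => ?_)
    rw [map_mul, map_prod]
    simp only [map_pow]
    exact le_rfl
  have h4 : ∀ e ∈ G.support.erase u, R * ∏ j, v (x j) ^ e j ≤ r * R ^ D := by
    intro e he
    rw [Finset.mem_erase] at he
    have hdeg : e.degree ≤ D := le_totalDegree he.2
    rw [Fin.prod_univ_castSucc, hL]
    by_cases hex : ∃ i : Fin m, e i.castSucc ≠ 0
    · obtain ⟨i, hi⟩ := hex
      rw [← Finset.mul_prod_erase _ _ (Finset.mem_univ i)]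
      have h5 : v (x i.castSucc) ^ e i.castSucc ≤ r * R ^ (e i.castSucc - 1) := by
        obtain ⟨k, hk⟩ := Nat.exists_eq_succ_of_ne_zero hi
        rw [hk, Nat.succ_sub_one, pow_succ, mul_comm]
        exact mul_le_mul (hx i) (pow_le_pow_left₀ (v.nonneg _) ((hx i).trans hrR) _)
          (pow_nonneg (v.nonneg _) _) hr0.le
      have h6 : ∏ j ∈ Finset.univ.erase i, v (x (Fin.castSucc j)) ^ e j.castSucc ≤
          R ^ ∑ j ∈ Finset.univ.erase i, e j.castSucc := by
        rw [← Finset.prod_pow_eq_pow_sum]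
        refine Finset.prod_le_prod (fun j _ => pow_nonneg (v.nonneg _) _) fun j _ => ?_
        exact pow_le_pow_left₀ (v.nonneg _) ((hx j).trans hrR) _
      have h7 : e.degree = e i.castSucc + ∑ j ∈ Finset.univ.erase i, e j.castSucc +
          e (Fin.last m) := by
        rw [Finsupp.degree_eq_sum, Fin.sum_univ_castSucc,
          Finset.add_sum_erase _ (fun j : Fin m => e j.castSucc) (Finset.mem_univ i)]
      calc R * ((v (x i.castSucc) ^ e i.castSucc *
            ∏ j ∈ Finset.univ.erase i, v (x (Fin.castSucc j)) ^ e j.castSucc) * R ^ e (Fin.last m))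
          ≤ R * (r * R ^ (e i.castSucc - 1) *
            R ^ (∑ j ∈ Finset.univ.erase i, e j.castSucc) * R ^ e (Fin.last m)) := by
            refine mul_le_mul_of_nonneg_left ?_ hR0.le
            refine mul_le_mul_of_nonneg_right ?_ (by positivity)
            exact mul_le_mul h5 h6 (Finset.prod_nonneg fun j _ => pow_nonneg (v.nonneg _) _)
              (by positivity)
        _ = r * R ^ e.degree := by
            rw [h7]
            obtain ⟨k, hk⟩ := Nat.exists_eq_succ_of_ne_zero hi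
            rw [hk, Nat.succ_sub_one]
            simp only [Nat.succ_eq_add_one]
            ring
        _ ≤ r * R ^ D := mul_le_mul_of_nonneg_left (pow_le_pow_right₀ hR1 hdeg) hr0.le
    · push Not at hex
      have h5 : e = Finsupp.single (Fin.last m) (e (Fin.last m)) := by
        ext j
        refine Fin.lastCases ?_ (fun i => ?_) j
        · simp
        · rw [hex i]
          simp
      have h6 : e.degree = e (Fin.last m) := by
        rw [Finsupp.degree_eq_sum, Fin.sum_univ_castSucc]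
        simp [hex]
      have h7 : e (Fin.last m) < D := by
        refine lt_of_le_of_ne (h6 ▸ hdeg) fun h8 => he.1 ?_
        rw [h5, h8]
      have h8 : ∏ i : Fin m, v (x i.castSucc) ^ e i.castSucc = 1 :=
        Finset.prod_eq_one fun i _ => by rw [hex i, pow_zero]
      rw [h8, one_mul]
      calc R * R ^ e (Fin.last m) = R ^ (e (Fin.last m) + 1) := by ring
        _ ≤ R ^ D := pow_le_pow_right₀ hR1 h7
        _ ≤ r * R ^ D := le_mul_of_one_le_left (by positivity) hr
  have h9 : R * (v (coeff u G) * R ^ D) ≤ (∑ e ∈ G.support, v (coeff e G)) * (r * R ^ D) := by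
    calc R * (v (coeff u G) * R ^ D)
        ≤ R * ∑ e ∈ G.support.erase u, v (coeff e G) * ∏ j, v (x j) ^ e j :=
          mul_le_mul_of_nonneg_left h2 hR0.le
      _ = ∑ e ∈ G.support.erase u, v (coeff e G) * (R * ∏ j, v (x j) ^ e j) := by
          rw [Finset.mul_sum]
          refine Finset.sum_congr rfl fun e _ => by ring
      _ ≤ ∑ e ∈ G.support.erase u, v (coeff e G) * (r * R ^ D) :=
          Finset.sum_le_sum fun e he => mul_le_mul_of_nonneg_left (h4 e he) (v.nonneg _)
      _ = (∑ e ∈ G.support.erase u, v (coeff e G)) * (r * R ^ D) := by rw [Finset.sum_mul]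
      _ ≤ (∑ e ∈ G.support, v (coeff e G)) * (r * R ^ D) := by
          refine mul_le_mul_of_nonneg_right ?_ (by positivity)
          exact Finset.sum_le_sum_of_subset_of_nonneg (Finset.erase_subset _ _)
            fun e _ _ => v.nonneg _
  have h10 : (0 : ℝ) < R ^ D := by positivity
  have h11 : (v (coeff u G) * R) * R ^ D ≤ ((∑ e ∈ G.support, v (coeff e G)) * r) * R ^ D := by
    linarith
  exact absurd (le_of_mul_le_mul_right h11 h10) (not_le.2 h)

/-- The size of the window. -/
noncomputable def Rn (v : AbsoluteValue K ℝ) (m : ℕ) (a : ℕ → K) (n : ℕ) : ℝ :=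
  Finset.univ.sup' ⟨0, Finset.mem_univ 0⟩ (fun i : Fin (m + 1) => max 1 (v (a (n + i))))

theorem le_Rn (v : AbsoluteValue K ℝ) (a : ℕ → K) (n : ℕ) (i : Fin (m + 1)) :
    v (a (n + i)) ≤ Rn v m a n :=
  (le_max_right _ _).trans
    (Finset.le_sup' (fun i : Fin (m + 1) => max 1 (v (a (n + i)))) (Finset.mem_univ i))

theorem one_le_Rn (v : AbsoluteValue K ℝ) (a : ℕ → K) (n : ℕ) : 1 ≤ Rn v m a n :=
  (le_max_left _ _).trans
    (Finset.le_sup' (fun i : Fin (m + 1) => max 1 (v (a (n + i)))) (Finset.mem_univ 0))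

theorem Rn_succ_le (v : AbsoluteValue K ℝ) (a : ℕ → K) (n : ℕ) :
    Rn v m a (n + 1) ≤ max (Rn v m a n) (v (a (n + (m + 1)))) := by
  refine Finset.sup'_le _ _ fun i _ => ?_
  refine max_le ((one_le_Rn v a n).trans (le_max_left _ _)) ?_
  refine Fin.lastCases ?_ (fun i => ?_) i
  · refine le_trans (le_of_eq ?_) (le_max_right _ _)
    rw [Fin.val_last]
    congr 2
    omega
  · refine le_trans (le_trans (le_of_eq ?_) (le_Rn v a n i.succ)) (le_max_left _ _)
    rw [Fin.val_succ, Fin.val_castSucc]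
    congr 2
    omega

theorem eval_le (v : AbsoluteValue K ℝ) {f : MvPolynomial (Fin (m + 1)) K}
    (hdeg : f.totalDegree ≤ d) (x : Fin (m + 1) → K) (R : ℝ) (hR : 1 ≤ R)
    (hx : ∀ i, v (x i) ≤ R) : v (eval x f) ≤ (∑ e ∈ f.support, v (coeff e f)) * R ^ d := by
  rw [eval_eq', Finset.sum_mul]
  refine (v.sum_le _ _).trans (Finset.sum_le_sum fun e he => ?_)
  rw [map_mul, map_prod]
  refine mul_le_mul_of_nonneg_left ?_ (v.nonneg _)
  calc ∏ j, v (x j ^ e j) ≤ ∏ j, R ^ e j := by
        refine Finset.prod_le_prod (fun j _ => v.nonneg _) fun j _ => ?_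
        rw [map_pow]
        exact pow_le_pow_left₀ (v.nonneg _) (hx j) _
    _ = R ^ e.degree := by rw [Finset.prod_pow_eq_pow_sum, Finsupp.degree_eq_sum]
    _ ≤ R ^ d := pow_le_pow_right₀ hR ((le_totalDegree he).trans hdeg)

theorem finite_of_shift_set {S : Set ℕ} (k : ℕ) (h : {n | n + k ∈ S}.Finite) : S.Finite := by
  refine ((Finset.range k).finite_toSet.union (h.image (fun n => n + k))).subset ?_
  intro n hn
  by_cases hk : n < k
  · exact Or.inl (by simpa using hk)
  · right
    refine ⟨n - k, ?_, by simp only; omega⟩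
    have e : n - k + k = n := by omega
    change n - k + k ∈ S
    rwa [e]

/-- **Growth theorem.** If a solution of the recurrence has maximal growth with respect to an
absolute value, then all its return sets are finite. -/
theorem growth (v : AbsoluteValue K ℝ) (hd : 2 ≤ d) {f : MvPolynomial (Fin (m + 1)) K}
    (hdeg : f.totalDegree ≤ d) (ha : coeff (Finsupp.single (Fin.last m) d) f ≠ 0)
    (hg : coeff (Finsupp.single 0 1 + Finsupp.single (Fin.last m) (d - 1)) f ≠ 0) (a : ℕ → K)
    (rec : ∀ n, a (n + (m + 1)) = eval (fun i : Fin (m + 1) => a (n + i)) f)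
    (hgr : ∃ ε > 0, ∀ N, ∃ n, N ≤ n ∧ ε * (d : ℝ) ^ n ≤ Real.log (v (a n)))
    {F : MvPolynomial (Fin (m + 1)) K} (hF : F ≠ 0) :
    {n | eval (fun i : Fin (m + 1) => a (n + i)) F = 0}.Finite := by
  classical
  obtain ⟨ε, hε, hinf⟩ := hgr
  set R := Rn v m a with hRdef
  have hR1 : ∀ n, 1 ≤ R n := one_le_Rn v a
  have hR0 : ∀ n, 0 < R n := fun n => zero_lt_one.trans_le (hR1 n)
  have hRs : ∀ n, R (n + 1) ≤ max (R n) (v (a (n + (m + 1)))) := Rn_succ_le v a
  set C : ℝ := max 1 (∑ e ∈ f.support, v (coeff e f)) with hC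
  have hC1 : 1 ≤ C := le_max_left _ _
  have hC0 : 0 < C := zero_lt_one.trans_le hC1
  have hnew : ∀ n, v (a (n + (m + 1))) ≤ C * R n ^ d := by
    intro n
    rw [rec n]
    refine (eval_le v hdeg _ (R n) (hR1 n) fun i => le_Rn v a n i).trans ?_
    exact mul_le_mul_of_nonneg_right (le_max_right _ _) (by have := hR0 n; positivity)
  have hRd : ∀ n, R (n + 1) ≤ C * R n ^ d := by
    intro n
    refine (hRs n).trans (max_le ?_ (hnew n))
    calc R n = 1 * R n ^ 1 := by rw [one_mul, pow_one]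
      _ ≤ C * R n ^ d := mul_le_mul hC1 (pow_le_pow_right₀ (hR1 n) (by omega))
          (by have := hR0 n; positivity) hC0.le
  have hlog : ∀ M : ℝ, ∃ N, ∀ n, N ≤ n → Real.log (R n) + M ≤ Real.log (R (n + 1)) := by
    refine incr hd (fun n => Real.log (R n)) (Real.log C) (Real.log_nonneg hC1) ?_ ε hε ?_
    · intro n
      have h1 := Real.log_le_log (hR0 _) (hRd n)
      rwa [Real.log_mul hC0.ne' (pow_ne_zero _ (hR0 n).ne'), Real.log_pow] at h1
    · intro N
      obtain ⟨n, hn, h1⟩ := hinf N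
      refine ⟨n, hn, h1.trans ?_⟩
      have h2 : 0 < Real.log (v (a n)) := lt_of_lt_of_le (by positivity) h1
      have h3 : 0 < v (a n) := by
        rcases (v.nonneg (a n)).eq_or_lt with h4 | h4
        · rw [← h4, Real.log_zero] at h2
          exact absurd h2 (lt_irrefl _)
        · exact h4
      have h5 := le_Rn (m := m) v a n 0
      rw [Fin.val_zero, add_zero] at h5
      exact Real.log_le_log h3 h5
  obtain ⟨k, hk⟩ := term hd hdeg ha hg hF
  set G := (fun G => bind₁ (sh f) G)^[k] F with hG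
  set cG := v (coeff (Finsupp.single (Fin.last m) G.totalDegree) G) with hcG
  have hcG0 : 0 < cG := v.pos hk
  set S : ℝ := ∑ e ∈ G.support, v (coeff e G) with hS
  have hS0 : 0 ≤ S := Finset.sum_nonneg fun e _ => v.nonneg _
  have hbig : ∃ N, ∀ n, N ≤ n → R n < R (n + 1) ∧ S * R n < cG * R (n + 1) := by
    have hx : 0 < (S + 1) / cG + 1 := by positivity
    obtain ⟨N, hN⟩ := hlog (Real.log ((S + 1) / cG + 1) + 1)
    refine ⟨N, fun n hn => ?_⟩
    have h1 := hN n hn
    have h2 : R n * ((S + 1) / cG + 1) ≤ R (n + 1) := by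
      rw [← Real.log_le_log_iff (by have := hR0 n; positivity) (hR0 _),
        Real.log_mul (hR0 n).ne' hx.ne']
      linarith
    have h3 : R n * ((S + 1) / cG + 1) * cG ≤ R (n + 1) * cG :=
      mul_le_mul_of_nonneg_right h2 hcG0.le
    have h4 : (S + 1) / cG * cG = S + 1 := div_mul_cancel₀ _ hcG0.ne'
    have h5 : R n * ((S + 1) / cG + 1) * cG = R n * (S + 1) + R n * cG := by
      calc R n * ((S + 1) / cG + 1) * cG = R n * ((S + 1) / cG * cG + cG) := by ring
        _ = R n * (S + 1) + R n * cG := by rw [h4]; ring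
    have h6 : 0 < R n * cG := mul_pos (hR0 n) hcG0
    refine ⟨?_, ?_⟩
    · have h7 : 0 < R n * ((S + 1) / cG) := by have := hR0 n; positivity
      nlinarith
    · nlinarith [hR0 n]
  obtain ⟨N, hN⟩ := hbig
  have hfin : ∀ n, N + 1 ≤ n → eval (win m a n) G ≠ 0 := by
    intro n hn
    obtain ⟨j, rfl⟩ : ∃ j, n = j + 1 := ⟨n - 1, by omega⟩
    obtain ⟨h1, h2⟩ := hN j (by omega)
    refine eval_ne_zero v (win m a (j + 1)) (R j) (R (j + 1)) (hR1 j) h1.le ?_ ?_ G h2
    · apply le_antisymm
      · exact le_Rn v a (j + 1) (Fin.last m)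
      · have h3 := hRs j
        have h4 : R (j + 1) ≤ v (a (j + (m + 1))) := by
          rcases le_max_iff.1 h3 with h5 | h5
          · exact absurd h5 (not_le.2 h1)
          · exact h5
        refine h4.trans (le_of_eq ?_)
        rw [win, Fin.val_last]
        congr 2
        omega
    · intro i
      refine le_trans (le_of_eq ?_) (le_Rn v a j i.succ)
      rw [win, Fin.val_castSucc, Fin.val_succ]
      congr 2
      omega
  refine finite_of_shift_set k (((Finset.range (N + 1)).finite_toSet).subset fun n hn => ?_)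
  by_contra h1
  have h2 : N + 1 ≤ n := by
    by_contra h3
    exact h1 (by simpa using h3)
  refine hfin n h2 ?_
  rw [hG, eval_shift_iterate (fun n => rec n)]
  exact hn

end Pool.Agent.Helper86.RR
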